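import Pool.Agent.H58.CT.Targets

/-!
# Projections of cyclic relations to two coordinates
-/

set_option autoImplicit false

namespace Pool.Agent.H77.CT

open Pool.Agent.H58.CT

section paths

variable {𝒞 : Cln} {E A B : Type} [Alg 𝒞 E] [Alg 𝒞 A] [Alg 𝒞 B]

private theorem stp_symm {R : Set E} {f : E → A} {g : E → B} {a b : E} (h : Stp R f g a b) :
    Stp R f g b a :=
  ⟨h.2.1, h.1, h.2.2.imp Eq.symm Eq.symm⟩

private theorem path_symm {R : Set E} {f : E → A} {g : E → B} {a b : E}
    (h : Relation.ReflTransGen (Stp R f g) a b) : Relation.ReflTransGen (Stp R f g) b a := by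
  induction h with
  | refl => exact Relation.ReflTransGen.refl
  | tail _ h2 ih => exact Relation.ReflTransGen.head (stp_symm h2) ih

private theorem path_upd {R : Set E} {f : E → A} {g : E → B} (hf : Hm 𝒞 f) (hg : Hm 𝒞 g)
    (hR : Sub 𝒞 R) {I : Type} [Finite I] [DecidableEq I] (t : 𝒞.T I) (z : I → E)
    (hz : ∀ k, z k ∈ R) (k₀ : I) {u v : E} (h : Relation.ReflTransGen (Stp R f g) u v) :
    Relation.ReflTransGen (Stp R f g) (Alg.int t (Function.update z k₀ u))
      (Alg.int t (Function.update z k₀ v)) := by
  have key : ∀ {C : Type} [Alg 𝒞 C] (φ : E → C), Hm 𝒞 φ → ∀ a b : E, φ a = φ b →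
      φ (Alg.int t (Function.update z k₀ a)) = φ (Alg.int t (Function.update z k₀ b)) := by
    intro C _ φ hφ a b hab
    rw [hφ, hφ]
    congr 1
    funext k
    by_cases hk : k = k₀
    · subst hk
      rw [Function.update_self, Function.update_self, hab]
    · rw [Function.update_of_ne hk, Function.update_of_ne hk]
  have mem : ∀ a ∈ R, Alg.int t (Function.update z k₀ a) ∈ R := by
    intro a ha
    refine hR I t _ fun k => ?_
    by_cases hk : k = k₀
    · subst hk
      rw [Function.update_self]
      exact ha
    · rw [Function.update_of_ne hk]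
      exact hz k
  induction h with
  | refl => exact Relation.ReflTransGen.refl
  | tail _ h2 ih =>
    refine ih.tail ⟨mem _ h2.1, mem _ h2.2.1, ?_⟩
    rcases h2.2.2 with h3 | h3
    · exact Or.inl (key f hf _ _ h3)
    · exact Or.inr (key g hg _ _ h3)

private theorem path_int {R : Set E} {f : E → A} {g : E → B} (hf : Hm 𝒞 f) (hg : Hm 𝒞 g)
    (hR : Sub 𝒞 R) {I : Type} [Finite I] (t : 𝒞.T I) (r r' : I → E) (hr : ∀ k, r k ∈ R)
    (hr' : ∀ k, r' k ∈ R) (h : ∀ k, Relation.ReflTransGen (Stp R f g) (r k) (r' k)) :
    Relation.ReflTransGen (Stp R f g) (Alg.int t r) (Alg.int t r') := by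
  classical
  have := Fintype.ofFinite I
  have key : ∀ s : Finset I, Relation.ReflTransGen (Stp R f g) (Alg.int t r)
      (Alg.int t (fun k => if k ∈ s then r' k else r k)) := by
    intro s
    induction s using Finset.induction_on with
    | empty =>
      simp only [Finset.notMem_empty, if_false]
      exact Relation.ReflTransGen.refl
    | insert k₀ s hk ih =>
      refine ih.trans ?_
      have h1 := path_upd hf hg hR t (fun k => if k ∈ s then r' k else r k)
        (fun k => by
          show (if k ∈ s then r' k else r k) ∈ R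
          split_ifs
          · exact hr' k
          · exact hr k) k₀ (h k₀)
      have h2 : Function.update (fun k => if k ∈ s then r' k else r k) k₀ (r k₀) =
          fun k => if k ∈ s then r' k else r k := by
        funext k
        by_cases hkk : k = k₀
        · subst hkk
          rw [Function.update_self, if_neg hk]
        · rw [Function.update_of_ne hkk]
      have h3 : Function.update (fun k => if k ∈ s then r' k else r k) k₀ (r' k₀) =
          fun k => if k ∈ insert k₀ s then r' k else r k := by
        funext k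
        by_cases hkk : k = k₀
        · subst hkk
          rw [Function.update_self, if_pos (Finset.mem_insert_self _ _)]
        · rw [Function.update_of_ne hkk]
          have : k ∈ insert k₀ s ↔ k ∈ s := by
            rw [Finset.mem_insert]
            exact ⟨fun h => h.resolve_left hkk, Or.inr⟩
          simp only [this]
      rw [h2, h3] at h1
      exact h1
  have h4 := key Finset.univ
  simp only [Finset.mem_univ, if_true] at h4
  exact h4

end paths

section cyc

variable {A : Type} {p : ℕ} [Fact p.Prime]

private theorem shift_nat {R : Set (ZMod p → A)} (h : ∀ r ∈ R, sh r ∈ R) (k : ℕ) :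
    ∀ r ∈ R, (fun j : ZMod p => r (j + (k : ZMod p))) ∈ R := by
  induction k with
  | zero =>
    intro r hr
    simpa using hr
  | succ k ih =>
    intro r hr
    have h1 := h _ (ih r hr)
    have h2 : sh (fun j : ZMod p => r (j + (k : ZMod p))) =
        fun j : ZMod p => r (j + ((k + 1 : ℕ) : ZMod p)) := by
      funext j
      show r (j + 1 + (k : ZMod p)) = _
      congr 1
      push_cast
      ring
    rw [h2] at h1
    exact h1

private theorem shift_all {R : Set (ZMod p → A)} (h : ∀ r ∈ R, sh r ∈ R) (c : ZMod p) :
    ∀ r ∈ R, (fun j : ZMod p => r (j + c)) ∈ R := by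
  intro r hr
  have h1 := shift_nat h c.val r hr
  rwa [ZMod.natCast_zmod_val] at h1

end cyc

/-- the target `T_LNE` -/
theorem pf_LNE : T_LNE := by
  classical
  intro 𝒞 A _ _ p _ R hS hcard hne hR hsh hon
  have hp : p.Prime := Fact.out
  by_cases hall : ∀ i j : ZMod p, i ≠ j → Lnk R (fun r => r i) (fun r => r j)
  · exact Or.inr hall
  left
  push Not at hall
  obtain ⟨i, j, hij, hnl⟩ := hall
  have honto : ∀ (m : ZMod p) (a : A), ∃ r ∈ R, r m = a := by
    intro m a
    obtain ⟨r, hr, hra⟩ := hon a
    refine ⟨_, shift_all hsh (-m) r hr, ?_⟩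
    show r (m + -m) = a
    rw [add_neg_cancel]
    exact hra
  -- the congruence
  set f : (ZMod p → A) → A := fun r => r i with hfdef
  set g : (ZMod p → A) → A := fun r => r j with hgdef
  have hf : Hm 𝒞 f := hm_eval i
  have hg : Hm 𝒞 g := hm_eval j
  have hcong : Cong 𝒞 (fun a a' : A => ∃ r ∈ R, ∃ r' ∈ R, f r = a ∧ f r' = a' ∧
      Relation.ReflTransGen (Stp R f g) r r') := by
    refine ⟨⟨?_, ?_, ?_⟩, ?_⟩
    · intro a
      obtain ⟨r, hr, hra⟩ := honto i a
      exact ⟨r, hr, r, hr, hra, hra, Relation.ReflTransGen.refl⟩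
    · rintro a b ⟨r, hr, r', hr', h1, h2, h3⟩
      exact ⟨r', hr', r, hr, h2, h1, path_symm h3⟩
    · rintro a b c ⟨r, hr, r', hr', h1, h2, h3⟩ ⟨s, hs, s', hs', h4, h5, h6⟩
      refine ⟨r, hr, s', hs', h1, h5, (h3.tail ⟨hr', hs, Or.inl ?_⟩).trans h6⟩
      rw [h2, h4]
    · intro I _ t x y h
      choose r hr r' hr' h1 h2 h3 using h
      refine ⟨Alg.int t r, hR I t r hr, Alg.int t r', hR I t r' hr', ?_, ?_, ?_⟩
      · rw [hf]
        congr 1
        funext k
        exact h1 k
      · rw [hf]
        congr 1
        funext k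
        exact h2 k
      · exact path_int hf hg hR t r r' hr hr' h3
  rcases hS _ hcong with h | h
  · -- equality
    have hfun : ∀ r ∈ R, ∀ r' ∈ R, r j = r' j → r i = r' i := by
      intro r hr r' hr' hj
      exact h _ _ ⟨r, hr, r', hr', rfl, rfl,
        Relation.ReflTransGen.single ⟨hr, hr', Or.inr hj⟩⟩
    choose q hq hqa using honto j
    set φ : A → A := fun a => q a i with hφ
    have hφr : ∀ r ∈ R, r i = φ (r j) := by
      intro r hr
      exact hfun r hr (q (r j)) (hq _) (hqa _).symm
    have hsurj : Function.Surjective φ := by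
      intro a
      obtain ⟨r, hr, hra⟩ := honto i a
      exact ⟨r j, by rw [← hφr r hr, hra]⟩
    have hbij : Function.Bijective φ := ⟨Finite.injective_iff_surjective.2 hsurj, hsurj⟩
    set d : ZMod p := j - i with hd
    have hd0 : d ≠ 0 := sub_ne_zero.2 hij.symm
    have hstep : ∀ r ∈ R, ∀ m : ZMod p, r m = φ (r (m + d)) := by
      intro r hr m
      have h1 := hφr _ (shift_all hsh (m - i) r hr)
      have h2 : i + (m - i) = m := by ring
      have h3 : j + (m - i) = m + d := by rw [hd]; ring
      rwa [h2, h3] at h1
    have hiter : ∀ (k : ℕ), ∀ r ∈ R, ∀ m : ZMod p, r m = φ^[k] (r (m + (k : ZMod p) * d)) := by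
      intro k
      induction k with
      | zero =>
        intro r hr m
        simp
      | succ k ih =>
        intro r hr m
        rw [Function.iterate_succ_apply, ih r hr m]
        congr 1
        rw [hstep r hr (m + (k : ZMod p) * d)]
        congr 2
        push_cast
        ring
    set σ : Equiv.Perm A := Equiv.ofBijective φ hbij with hσ
    have hσφ : ∀ k : ℕ, ∀ a, (σ ^ k) a = φ^[k] a := by
      intro k a
      rw [← Equiv.Perm.iterate_eq_pow]
      rfl
    have hσp : σ ^ p = 1 := by
      ext a
      obtain ⟨r, hr, hra⟩ := honto 0 a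
      rw [hσφ, Equiv.Perm.one_apply]
      have h1 := hiter p r hr 0
      rw [CharP.cast_eq_zero, zero_mul, add_zero, hra] at h1
      exact h1.symm
    have hσ1 : σ = 1 := by
      have := Fintype.ofFinite A
      have h1 : orderOf σ ∣ p := orderOf_dvd_of_pow_eq_one hσp
      rcases (Nat.dvd_prime hp).1 h1 with h2 | h2
      · exact orderOf_eq_one_iff.1 h2
      · exfalso
        have h3 : orderOf σ ∣ Fintype.card (Equiv.Perm A) := orderOf_dvd_card
        rw [h2, Fintype.card_perm, hp.dvd_factorial, ← Nat.card_eq_fintype_card] at h3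
        omega
    have hid : ∀ a, φ a = a := by
      intro a
      have : σ a = a := by rw [hσ1, Equiv.Perm.one_apply]
      exact this
    have hper : ∀ r ∈ R, ∀ m : ZMod p, r m = r (m + d) := by
      intro r hr m
      have h1 := hstep r hr m
      rwa [hid] at h1
    have hper2 : ∀ r ∈ R, ∀ (k : ℕ) (m : ZMod p), r m = r (m + (k : ZMod p) * d) := by
      intro r hr k
      induction k with
      | zero => intro m; simp
      | succ k ih =>
        intro m
        rw [ih m, hper r hr (m + (k : ZMod p) * d)]
        congr 1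
        push_cast
        ring
    obtain ⟨r, hr⟩ := hne
    refine ⟨r 0, ?_⟩
    have hconst : (fun _ => r 0) = r := by
      funext m
      have h1 := hper2 r hr (m * d⁻¹).val 0
      rw [ZMod.natCast_zmod_val, zero_add, mul_assoc, inv_mul_cancel₀ hd0, mul_one] at h1
      exact h1
    rw [hconst]
    exact hr
  · -- linked
    exfalso
    apply hnl
    intro r hr r' hr'
    obtain ⟨s, hs, s', hs', h1, h2, h3⟩ := h (r i) (r' i)
    refine (Relation.ReflTransGen.single ⟨hr, hs, Or.inl h1.symm⟩).trans (h3.tail
      ⟨hs', hr', Or.inl h2⟩)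

end Pool.Agent.H77.CT
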